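import Mathlib
import Pool.Agent.Y254.TN.Base

/-!
# The convolution classes `T(α,β)`: all complex parameters, compactness

For complex `α, β` the following are equivalent: `T(α,β)` is a normal family; `T(α,β)` is compact
(every sequence has a subsequence that converges locally uniformly to a member of the class); `T(α,β)`
is locally uniformly bounded; every Taylor coefficient is bounded on `T(α,β)`; `α ≠ 0`, `β ≠ 0` and not
both `α` and `-β` are natural numbers. In particular `T(α,β)` is compact for all real `α, β ≥ 1`.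
-/

set_option autoImplicit false
open Metric Filter Topology Finset

namespace Pool.Agent.Results.MP_c40ba2_an.Classification

/-- `k`-th Taylor coefficient at `0`. -/
noncomputable def taylorCoeff (f : ℂ → ℂ) (k : ℕ) : ℂ := iteratedDeriv k f 0 / (k.factorial : ℂ)

/-- Hadamard product (convolution) of two functions analytic in the unit disc. -/
noncomputable def hadamard (f g : ℂ → ℂ) (z : ℂ) : ℂ :=
  ∑' k : ℕ, taylorCoeff f k * taylorCoeff g k * z ^ k

/-- The kernel `(1 + x z)^α (1 - z)^(-β)`, complex `α`, `β`; principal branches, equal to `1` at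
`z = 0`. -/
noncomputable def kernel (α β : ℂ) (x : ℂ) (z : ℂ) : ℂ := (1 + x * z) ^ α * (1 - z) ^ (-β)

/-- The class `T(α,β)`. -/
def T (α β : ℂ) : Set (ℂ → ℂ) :=
  {φ | DifferentiableOn ℂ φ (ball 0 1) ∧ φ 0 = 1 ∧
    ∀ x : ℂ, ‖x‖ = 1 → ∀ z ∈ ball (0 : ℂ) 1, hadamard φ (kernel α β x) z ≠ 0}

/-- Normal family: every sequence has a subsequence converging locally uniformly in the unit disc. -/
def IsNormal (𝓕 : Set (ℂ → ℂ)) : Prop :=
  ∀ φ : ℕ → ℂ → ℂ, (∀ k, φ k ∈ 𝓕) → ∃ (g : ℂ → ℂ) (s : ℕ → ℕ), StrictMono s ∧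
    TendstoLocallyUniformlyOn (fun k => φ (s k)) g atTop (ball 0 1)

/-- Compact family: the same with the limit in the family. -/
def IsCompactFamily (𝓕 : Set (ℂ → ℂ)) : Prop :=
  ∀ φ : ℕ → ℂ → ℂ, (∀ k, φ k ∈ 𝓕) → ∃ (g : ℂ → ℂ) (s : ℕ → ℕ), g ∈ 𝓕 ∧ StrictMono s ∧
    TendstoLocallyUniformlyOn (fun k => φ (s k)) g atTop (ball 0 1)

/-- Locally uniformly bounded family. -/
def LocallyBounded (𝓕 : Set (ℂ → ℂ)) : Prop :=
  ∀ r : ℝ, r < 1 → ∃ C : ℝ, ∀ φ ∈ 𝓕, ∀ z : ℂ, ‖z‖ ≤ r → ‖φ z‖ ≤ C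

/-- Every Taylor coefficient is bounded on the family. -/
def CoefficientsBounded (𝓕 : Set (ℂ → ℂ)) : Prop :=
  ∀ n : ℕ, ∃ C : ℝ, ∀ φ ∈ 𝓕, ‖taylorCoeff φ n‖ ≤ C

open Pool.Agent.H978R3 Pool.Agent.Y254.TN

theorem hadamard_eq (α β : ℂ) (φ : ℂ → ℂ) {x : ℂ} (hx : ‖x‖ = 1) (z : ℂ) :
    hadamard φ (kernel α β x) z = F α β (taylorCoeff φ) x z := by
  have h : ∀ k, taylorCoeff (kernel α β x) k = cf α β x k := by
    intro k
    apply coeff_eq_of_eqOn (GC_cf α β hx.le)
    intro z hz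
    exact (kernel_hasSum α β hx.le hz).unique ((GC_cf α β hx.le).hasSum hz)
  simp only [hadamard, h]
  rfl

theorem F_ne_of_mem {α β : ℂ} {φ : ℂ → ℂ} (hφ : φ ∈ T α β) :
    ∀ x : ℂ, ‖x‖ ≤ 1 → ∀ z : ℂ, ‖z‖ < 1 → F α β (taylorCoeff φ) x z ≠ 0 := by
  refine F_ne_zero (GC_taylor hφ.1) (by simp [hφ.2.1]) α β ?_
  intro x hx z hz
  have h1 := hφ.2.2 x hx z (by simpa using hz)
  rw [hadamard_eq α β φ hx z] at h1
  exact h1

theorem mem_T {α β : ℂ} {a : ℕ → ℂ} (ha : GC a) (h0 : a 0 = 1)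
    (hF : ∀ x : ℂ, ‖x‖ = 1 → ∀ z : ℂ, ‖z‖ < 1 → F α β a x z ≠ 0) : S a ∈ T α β := by
  have hc : taylorCoeff (S a) = a := by
    funext n
    exact coeff_eq_of_eqOn ha (fun z _ => rfl) n
  refine ⟨ha.differentiableOn, by rw [S_zero, h0], ?_⟩
  intro x hx z hz
  rw [hadamard_eq α β _ hx z, hc]
  exact hF x hx z (by simpa using hz)

theorem coeff_S {a : ℕ → ℂ} (ha : GC a) (n : ℕ) : taylorCoeff (S a) n = a n :=
  coeff_eq_of_eqOn ha (fun _ _ => rfl) n

/-! ### sufficiency -/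

theorem locallyBounded {α β : ℂ} (hα : α ≠ 0) (hβ : β ≠ 0) (hne : ¬ ∃ m k : ℕ, α = m ∧ β = -(k : ℂ)) :
    LocallyBounded (T α β) := by
  intro r hr
  obtain ⟨ρ, hρ, hρ1⟩ := exists_between (max_lt hr zero_lt_one : max r 0 < 1)
  have hρ0 : 0 < ρ := (le_max_right r 0).trans_lt hρ
  obtain ⟨C, hC⟩ := coefficient_bound' hα hβ hne hρ0 hρ1
  refine ⟨C * (1 - max r 0 / ρ)⁻¹, ?_⟩
  intro φ hφ z hz
  have hz' : ‖z‖ ≤ max r 0 := hz.trans (le_max_left _ _)
  rw [eq_S_taylor hφ.1 (hz'.trans_lt (hρ.trans hρ1))]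
  exact S_bound (le_max_right _ _) hρ
    (hC _ (GC_taylor hφ.1) (by simp [hφ.2.1]) (F_ne_of_mem hφ)) hz'

theorem compactFamily {α β : ℂ} (hα : α ≠ 0) (hβ : β ≠ 0) (hne : ¬ ∃ m k : ℕ, α = m ∧ β = -(k : ℂ)) :
    IsCompactFamily (T α β) := by
  intro φ hφ
  have hGC : ∀ k, GC (taylorCoeff (φ k)) := fun k => GC_taylor (hφ k).1
  have ha0 : ∀ k, taylorCoeff (φ k) 0 = 1 := by
    intro k
    simp [taylorCoeff, (hφ k).2.1]
  obtain ⟨b, s, hs, hb, hlim⟩ := montel (fun k => taylorCoeff (φ k)) (by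
    intro r hr0 hr1
    obtain ⟨C, hC⟩ := coefficient_bound' hα hβ hne hr0 hr1
    exact ⟨C, fun k n => hC _ (hGC k) (ha0 k) (F_ne_of_mem (hφ k)) n⟩)
  have hb0 : b 0 = 1 := by
    have h1 := hlim.tendsto_at (show (0:ℂ) ∈ ball (0:ℂ) 1 by simp)
    simp only [S_zero, ha0] at h1
    exact (tendsto_nhds_unique h1 tendsto_const_nhds)
  refine ⟨S b, s, mem_T hb hb0 ?_, hs, ?_⟩
  · intro x hx
    exact F_ne_zero_of_tendsto (fun k => hGC (s k)) hb hb0 hlim hx.le
      (fun k z hz => F_ne_of_mem (hφ (s k)) x hx.le z hz)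
  · refine hlim.congr (fun k z hz => ?_)
    exact (eq_S_taylor (hφ (s k)).1 (by simpa using hz)).symm

/-! ### necessity -/

theorem coeff_of_locallyBounded {α β : ℂ} (h : LocallyBounded (T α β)) : CoefficientsBounded (T α β) := by
  intro n
  obtain ⟨C, hC⟩ := h (1 / 2) (by norm_num)
  refine ⟨C * 2 ^ n, ?_⟩
  intro φ hφ
  have h1 := coeff_le (GC_taylor hφ.1) (ρ := 1 / 2) (M := C) (by norm_num) (by norm_num) (fun z hz => by
    rw [← eq_S_taylor hφ.1 (by rw [hz]; norm_num)]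
    exact hC φ hφ z hz.le) n
  have h2 : ‖taylorCoeff φ n‖ * (1 / 2) ^ n ≤ C := h1
  calc ‖taylorCoeff φ n‖ = (‖taylorCoeff φ n‖ * (1 / 2) ^ n) * 2 ^ n := by
        rw [mul_assoc, ← mul_pow]; norm_num
    _ ≤ C * 2 ^ n := by gcongr

theorem coeff_of_normal {α β : ℂ} (h : IsNormal (T α β)) : CoefficientsBounded (T α β) := by
  intro n
  by_contra hcon
  push Not at hcon
  choose φ hφ hlt using fun k : ℕ => hcon k
  obtain ⟨g, s, hs, hlim⟩ := h φ hφ
  have hgc : ContinuousOn g (ball 0 1) :=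
    hlim.continuousOn (Filter.Eventually.frequently (Filter.Eventually.of_forall fun k =>
      (hφ (s k)).1.continuousOn))
  have hsub : sphere (0:ℂ) (1 / 2) ⊆ ball 0 1 := fun z hz => by
    have : ‖z‖ = 1 / 2 := by simpa using hz
    rw [mem_ball_zero_iff, this]; norm_num
  obtain ⟨B, hB⟩ := (isCompact_sphere (0:ℂ) (1 / 2)).exists_bound_of_continuousOn (hgc.mono hsub)
  have hunif := (tendstoLocallyUniformlyOn_iff_forall_isCompact isOpen_ball).1 hlim _ hsub
    (isCompact_sphere _ _)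
  rw [Metric.tendstoUniformlyOn_iff] at hunif
  have h2 := (hunif 1 one_pos).and (Filter.eventually_ge_atTop (⌈(B + 1) * 2 ^ n⌉₊))
  obtain ⟨k, hk, hk2⟩ := h2.exists
  have h1 := coeff_le (GC_taylor (hφ (s k)).1) (ρ := 1 / 2) (M := B + 1) (by norm_num) (by norm_num)
    (fun z hz => by
      rw [← eq_S_taylor (hφ (s k)).1 (by rw [hz]; norm_num)]
      have h3 := hk z (by simpa using hz)
      rw [dist_eq_norm] at h3
      have h4 := hB z (by simpa using hz)
      have h5 := norm_sub_norm_le (φ (s k) z) (g z)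
      rw [norm_sub_rev] at h5
      linarith) n
  have h2 : ‖taylorCoeff (φ (s k)) n‖ * (1 / 2) ^ n ≤ B + 1 := h1
  have h3 : ‖taylorCoeff (φ (s k)) n‖ ≤ (B + 1) * 2 ^ n := by
    calc ‖taylorCoeff (φ (s k)) n‖ = (‖taylorCoeff (φ (s k)) n‖ * (1 / 2) ^ n) * 2 ^ n := by
          rw [mul_assoc, ← mul_pow]; norm_num
      _ ≤ (B + 1) * 2 ^ n := by gcongr
  have h4 := hlt (s k)
  have h5 : (k : ℝ) ≤ (s k : ℝ) := by exact_mod_cast hs.id_le k
  have h6 : (B + 1) * 2 ^ n ≤ (k : ℝ) := (Nat.le_ceil _).trans (by exact_mod_cast hk2)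
  linarith

theorem GC_of_finite {a : ℕ → ℂ} {N : ℕ} (h : ∀ n, N < n → a n = 0) : GC a := by
  intro ρ _ _
  refine summable_of_ne_finset_zero (s := range (N + 1)) fun n hn => ?_
  rw [h n (by simpa using hn), norm_zero, zero_mul]

theorem cf_zero' (α β x : ℂ) : cf α β x 0 = 1 := by simp [cf, bc_zero, gm_zero]

/-- a vanishing coefficient of the kernel makes the class too large -/
theorem not_bdd_of_zero {α β : ℂ} {m : ℕ} (hm : m ≠ 0) (h : ∀ x : ℂ, ‖x‖ = 1 → cf α β x m = 0) :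
    ¬ CoefficientsBounded (T α β) := by
  intro hcb
  obtain ⟨C, hC⟩ := hcb m
  set c : ℂ := ((|C| + 1 : ℝ) : ℂ) with hc
  set a : ℕ → ℂ := fun n => if n = 0 then 1 else if n = m then c else 0 with ha
  have hGC : GC a := GC_of_finite (N := m) fun n hn => by
    rw [ha]
    simp only
    rw [if_neg (by omega), if_neg (by omega)]
  have hmem : S a ∈ T α β := by
    refine mem_T hGC (by simp [ha]) fun x hx z hz => ?_
    have : F α β a x z = 1 := by
      show ∑' n, a n * cf α β x n * z ^ n = 1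
      rw [tsum_eq_single 0]
      · simp [ha, cf_zero']
      · intro n hn
        by_cases hnm : n = m
        · rw [hnm, h x hx]; simp
        · simp [ha, hn, hnm]
    rw [this]
    exact one_ne_zero
  have h1 := hC _ hmem
  rw [coeff_S hGC m] at h1
  simp only [ha, if_neg hm, if_true] at h1
  rw [hc, Complex.norm_real, Real.norm_of_nonneg (by positivity)] at h1
  have := le_abs_self C
  linarith

/-- a kernel with coefficients `t n * e ^ n` makes the class too large -/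
theorem not_bdd_of_product {α β : ℂ} (t : ℕ → ℂ) (e : ℂ → ℂ) (he : ∀ x : ℂ, ‖x‖ = 1 → ‖e x‖ = 1)
    (ht : ∀ x : ℂ, ‖x‖ = 1 → ∀ n, cf α β x n = t n * e x ^ n) : ¬ CoefficientsBounded (T α β) := by
  by_cases hz : ∃ m, t m = 0
  · obtain ⟨m, hm⟩ := hz
    have hm0 : m ≠ 0 := by
      rintro rfl
      have h1 := ht 1 (by simp) 0
      rw [cf_zero', hm] at h1
      simp at h1
    exact not_bdd_of_zero hm0 fun x hx => by rw [ht x hx, hm, zero_mul]
  · push Not at hz
    intro hcb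
    obtain ⟨C, hC⟩ := hcb 1
    have h1pos : 0 < ‖t 1‖ := norm_pos_iff.2 (hz 1)
    obtain ⟨N, hN⟩ := exists_nat_gt (|C| * ‖t 1‖)
    set a : ℕ → ℂ := fun n => (N.choose n : ℂ) / t n with ha
    have hGC : GC a := GC_of_finite (N := N) fun n hn => by
      rw [ha]
      simp only
      rw [Nat.choose_eq_zero_of_lt hn]
      simp
    have ht0 : t 0 = 1 := by
      have h1 := ht 1 (by simp) 0
      rw [cf_zero'] at h1
      simpa using h1.symm
    have hmem : S a ∈ T α β := by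
      refine mem_T hGC (by simp [ha, ht0]) fun x hx z hz' => ?_
      have : F α β a x z = (e x * z + 1) ^ N := by
        show ∑' n, a n * cf α β x n * z ^ n = _
        rw [add_pow, tsum_eq_sum (s := range (N + 1))]
        · refine Finset.sum_congr rfl fun n _ => ?_
          rw [ht x hx n, ha]
          simp only
          rw [mul_pow, one_pow]
          field_simp [hz n]
        · intro n hn
          rw [ha]
          simp only
          rw [Nat.choose_eq_zero_of_lt (by simpa using hn)]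
          simp
      rw [this]
      apply pow_ne_zero
      intro h0
      have h2 : e x * z = -1 := by linear_combination h0
      have h3 : ‖e x * z‖ = 1 := by rw [h2]; simp
      rw [norm_mul, he x hx, one_mul] at h3
      linarith
    have h1 := hC _ hmem
    rw [coeff_S hGC 1] at h1
    simp only [ha, Nat.choose_one_right] at h1
    rw [norm_div, Complex.norm_natCast, div_le_iff₀ h1pos] at h1
    have h2 : C * ‖t 1‖ ≤ |C| * ‖t 1‖ := by have := le_abs_self C; gcongr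
    linarith

theorem bc_nat_zero {m j : ℕ} (h : m < j) : bc (m : ℂ) j = 0 := by
  have h1 := bc_neg (-(m : ℂ)) j
  rw [neg_neg, gm_neg_eq_zero h, mul_zero] at h1
  exact h1

theorem param_of_coeff {α β : ℂ} (h : CoefficientsBounded (T α β)) :
    α ≠ 0 ∧ β ≠ 0 ∧ ¬ ∃ m k : ℕ, α = m ∧ β = -(k : ℂ) := by
  refine ⟨?_, ?_, ?_⟩
  · rintro rfl
    refine not_bdd_of_product (α := 0) (β := β) (gm β) (fun _ => 1) (fun _ _ => by simp) ?_ h
    intro x _ n
    rw [cf, Finset.sum_eq_single 0]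
    · simp [bc_zero]
    · intro k _ hk
      have h1 : bc (0 : ℂ) k = 0 := by
        have := bc_nat_zero (m := 0) (j := k) (Nat.pos_of_ne_zero hk)
        simpa using this
      rw [h1]; ring
    · intro hn; simp at hn
  · rintro rfl
    refine not_bdd_of_product (α := α) (β := 0) (bc α) (fun x => x) (fun x hx => hx) ?_ h
    intro x _ n
    rw [cf, Finset.sum_eq_single n]
    · simp [gm_zero]
    · intro k hk hkn
      have hk' : k < n := lt_of_le_of_ne (Nat.lt_succ_iff.1 (Finset.mem_range.1 hk)) hkn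
      have h1 : gm (0 : ℂ) (n - k) = 0 := by
        have := gm_neg_eq_zero (N := 0) (m := n - k) (by omega)
        simpa using this
      rw [h1]; ring
    · intro hn; simp at hn
  · rintro ⟨m, k, rfl, rfl⟩
    refine not_bdd_of_zero (m := m + k + 1) (by omega) ?_ h
    intro x _
    rw [cf]
    refine Finset.sum_eq_zero fun j hj => ?_
    by_cases hjm : m < j
    · rw [bc_nat_zero hjm]; ring
    · rw [gm_neg_eq_zero (N := k) (m := m + k + 1 - j) (by omega)]; ring

theorem tfae (α β : ℂ) :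
    List.TFAE [IsNormal (T α β), IsCompactFamily (T α β), LocallyBounded (T α β),
      CoefficientsBounded (T α β), α ≠ 0 ∧ β ≠ 0 ∧ ¬ ∃ m k : ℕ, α = m ∧ β = -(k : ℂ)] := by
  tfae_have 5 → 2 := fun h => compactFamily h.1 h.2.1 h.2.2
  tfae_have 5 → 3 := fun h => locallyBounded h.1 h.2.1 h.2.2
  tfae_have 2 → 1 := by
    intro h φ hφ
    obtain ⟨g, s, _, hs, hlim⟩ := h φ hφ
    exact ⟨g, s, hs, hlim⟩
  tfae_have 1 → 4 := coeff_of_normal
  tfae_have 3 → 4 := coeff_of_locallyBounded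
  tfae_have 4 → 5 := param_of_coeff
  tfae_finish

/-- **Main result.** For all complex parameters `α, β`: normality, compactness, local boundedness and
boundedness of the Taylor coefficients of `T(α,β)` are equivalent, and they hold if and only if
`α ≠ 0`, `β ≠ 0` and not both `α` and `-β` are natural numbers. In particular `T(α,β)` is compact, hence
normal, for all real `α, β > 0`. -/
theorem result :
    (∀ α β : ℂ, List.TFAE [IsNormal (T α β), IsCompactFamily (T α β), LocallyBounded (T α β),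
      CoefficientsBounded (T α β), α ≠ 0 ∧ β ≠ 0 ∧ ¬ ∃ m k : ℕ, α = m ∧ β = -(k : ℂ)]) ∧
    ∀ a b : ℝ, 0 < a → 0 < b → IsNormal (T a b) ∧ IsCompactFamily (T a b) := by
  refine ⟨tfae, fun a b ha hb => ?_⟩
  have hp : (a : ℂ) ≠ 0 ∧ (b : ℂ) ≠ 0 ∧ ¬ ∃ m k : ℕ, (a : ℂ) = m ∧ (b : ℂ) = -(k : ℂ) := by
    refine ⟨by exact_mod_cast ha.ne', by exact_mod_cast hb.ne', ?_⟩
    rintro ⟨m, k, _, h⟩
    have h1 : b = -(k : ℝ) := by exact_mod_cast h
    have h2 : (0:ℝ) ≤ k := Nat.cast_nonneg k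
    linarith
  exact ⟨((tfae a b).out 0 4).2 hp, ((tfae a b).out 1 4).2 hp⟩

end Pool.Agent.Results.MP_c40ba2_an.Classification
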